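import Mathlib

set_option autoImplicit false

/-!
# With private outside options, posted pricing is not a constant-factor approximation
-/

namespace Pool.Agent.Results.MP_ec2b5b_lc.UnboundedGap

open Finset

/-- A finitely supported probability distribution on `[0, ∞)`. -/
structure FinDist where
  /-- a finite set of points carrying the distribution -/
  pts : Finset ℝ
  /-- the probability of each point -/
  prob : ℝ → ℝ
  prob_nonneg : ∀ v, 0 ≤ prob v
  prob_sum : ∑ v ∈ pts, prob v = 1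
  pts_nonneg : ∀ v ∈ pts, 0 ≤ v

/-- The possible payments of a buyer of type `(v, c)` facing the menu `M` of lotteries `(x, p)`:
declining (utility `c`, payment `0`) if it maximises utility, and `p` for every `(x, p) ∈ M` that
maximises utility among all options. -/
def payments (M : Set (ℝ × ℝ)) (v c : ℝ) : Set ℝ :=
  {r | (r = 0 ∧ ∀ o ∈ M, v * o.1 - o.2 ≤ c) ∨
    ∃ o ∈ M, r = o.2 ∧ c ≤ v * o.1 - o.2 ∧ ∀ o' ∈ M, v * o'.1 - o'.2 ≤ v * o.1 - o.2}

/-- The payment of type `(v, c)`, ties between utility-maximising options being broken in the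
seller's favour. -/
noncomputable def pay (M : Set (ℝ × ℝ)) (v c : ℝ) : ℝ := sSup (payments M v c)

/-- The revenue of a menu: the expected payment, `v ∼ F` and `c ∼ G` independent. -/
noncomputable def revenue (F G : FinDist) (M : Set (ℝ × ℝ)) : ℝ :=
  ∑ v ∈ F.pts, ∑ c ∈ G.pts, F.prob v * G.prob c * pay M v c

/-- `OPT(F,G)`: the supremum of the revenue over all menus `M ⊆ [0,1] × ℝ`. -/
noncomputable def OPT (F G : FinDist) : ℝ :=
  sSup {r | ∃ M : Set (ℝ × ℝ), (∀ o ∈ M, 0 ≤ o.1 ∧ o.1 ≤ 1) ∧ r = revenue F G M}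

/-- The probability `Pr[v - P ≥ c]`. -/
noncomputable def probBuy (F G : FinDist) (P : ℝ) : ℝ :=
  ∑ v ∈ F.pts, ∑ c ∈ G.pts, if c ≤ v - P then F.prob v * G.prob c else 0

/-- `PP(F,G)`: the supremum over `P ≥ 0` of the revenue `P · Pr[v - P ≥ c]` of a posted price. -/
noncomputable def PP (F G : FinDist) : ℝ :=
  sSup {r | ∃ P : ℝ, 0 ≤ P ∧ r = P * probBuy F G P}

/-! ## Distributions given by an indexed family -/

/-- The distribution with value `val a` with probability `wt a`. -/
noncomputable def ofIndex {ι : Type} [Fintype ι] (val : ι → ℝ) (hval : Function.Injective val)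
    (wt : ι → ℝ) (hwt : ∀ a, 0 ≤ wt a) (hsum : ∑ a, wt a = 1) (hpos : ∀ a, 0 ≤ val a) :
    FinDist where
  pts := univ.map ⟨val, hval⟩
  prob := fun v => ∑ a, if val a = v then wt a else 0
  prob_nonneg := fun v => Finset.sum_nonneg fun a _ => by
    split_ifs
    · exact hwt a
    · exact le_refl _
  prob_sum := by
    rw [Finset.sum_map, ← hsum]
    refine Finset.sum_congr rfl fun a _ => ?_
    simp only [Function.Embedding.coeFn_mk]
    rw [Finset.sum_eq_single a]
    · simp
    · intro b _ hb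
      rw [if_neg (fun e => hb (hval e))]
    · intro h; exact absurd (mem_univ _) h
  pts_nonneg := by
    intro v hv
    rw [Finset.mem_map] at hv
    obtain ⟨a, _, rfl⟩ := hv
    exact hpos a

theorem sum_ofIndex {ι : Type} [Fintype ι] (val : ι → ℝ) (hval : Function.Injective val)
    (wt : ι → ℝ) (hwt : ∀ a, 0 ≤ wt a) (hsum : ∑ a, wt a = 1) (hpos : ∀ a, 0 ≤ val a)
    (h : ℝ → ℝ → ℝ) :
    ∑ v ∈ (ofIndex val hval wt hwt hsum hpos).pts,
      h v ((ofIndex val hval wt hwt hsum hpos).prob v) = ∑ a, h (val a) (wt a) := by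
  unfold ofIndex
  simp only
  rw [Finset.sum_map]
  refine Finset.sum_congr rfl fun a _ => ?_
  simp only [Function.Embedding.coeFn_mk]
  congr 1
  rw [Finset.sum_eq_single a]
  · simp
  · intro b _ hb
    rw [if_neg (fun e => hb (hval e))]
  · intro h; exact absurd (mem_univ _) h

/-! ## The instance -/

section Instance

variable (n : ℕ)

/-- The small ratio `ε = 4⁻ⁿ`. -/
noncomputable def ep : ℝ := (1 / 4 : ℝ) ^ n

theorem ep_pos : 0 < ep n := by unfold ep; positivity

theorem ep_le_one : ep n ≤ 1 := pow_le_one₀ (by norm_num) (by norm_num)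

/-- The cumulative probabilities `g_j = ε^(n-j)` of the outside option. -/
noncomputable def gg (j : ℕ) : ℝ := ep n ^ (n - j)

theorem gg_pos (j : ℕ) : 0 < gg n j := pow_pos (ep_pos n) _

theorem gg_mono (j : ℕ) : gg n j ≤ gg n (j + 1) :=
  pow_le_pow_of_le_one (ep_pos n).le (ep_le_one n) (by omega)

/-- The probability of the outside option `c_j`. -/
noncomputable def gw (j : ℕ) : ℝ := if j = 0 then gg n 0 else gg n j - gg n (j - 1)

theorem gw_nonneg (j : ℕ) : 0 ≤ gw n j := by
  unfold gw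
  split_ifs with h
  · exact (gg_pos n 0).le
  · obtain ⟨k, rfl⟩ : ∃ k, j = k + 1 := ⟨j - 1, by omega⟩
    have := gg_mono n k
    simp only [Nat.add_sub_cancel]
    linarith

theorem sum_gw (k : ℕ) : ∑ i ∈ range (k + 1), gw n i = gg n k := by
  induction k with
  | zero => simp [gw]
  | succ k ih =>
    rw [Finset.sum_range_succ, ih]
    simp [gw]

/-- The outside option values `c_j = 4^j - 2^j`. -/
noncomputable def cv (j : ℕ) : ℝ := 4 ^ j - 2 ^ j

theorem four_pow_eq (j : ℕ) : (4 : ℝ) ^ j = 2 ^ j * 2 ^ j := by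
  rw [← mul_pow]; norm_num

theorem one_le_two_pow' (j : ℕ) : (1 : ℝ) ≤ 2 ^ j := one_le_pow₀ (by norm_num)

theorem cv_nonneg (j : ℕ) : 0 ≤ cv j := by
  unfold cv
  have := one_le_two_pow' j
  rw [four_pow_eq]
  nlinarith

theorem four_pow_lt_cv (j : ℕ) : (4 : ℝ) ^ j < cv (j + 1) := by
  unfold cv
  have := one_le_two_pow' j
  rw [four_pow_eq, four_pow_eq, pow_succ]
  nlinarith

theorem cv_lt (j : ℕ) : cv j < cv (j + 1) := by
  refine lt_trans ?_ (four_pow_lt_cv j)
  unfold cv
  have := one_le_two_pow' j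
  linarith

theorem cv_strictMono : StrictMono cv := strictMono_nat_of_lt_succ cv_lt

/-- The value distribution: `4^j` with probability `(ε/2)^j/(n+1)`, and `0` otherwise. -/
noncomputable def fw (j : ℕ) : ℝ := (ep n / 2) ^ j / (n + 1)

theorem fw_pos (j : ℕ) : 0 < fw n j := by
  unfold fw
  have := ep_pos n
  positivity

theorem fw_sum_le : ∑ j : Fin (n + 1), fw n j ≤ 1 := by
  have h1 : ∀ j : Fin (n + 1), fw n j ≤ 1 / (n + 1) := by
    intro j
    unfold fw
    have h2 := ep_pos n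
    have h3 := ep_le_one n
    have : (ep n / 2) ^ (j : ℕ) ≤ 1 := pow_le_one₀ (by linarith) (by linarith)
    gcongr
  calc ∑ j : Fin (n + 1), fw n j ≤ ∑ _j : Fin (n + 1), 1 / ((n : ℝ) + 1) :=
        Finset.sum_le_sum fun j _ => h1 j
    _ = 1 := by
        rw [Finset.sum_const, card_univ, Fintype.card_fin, nsmul_eq_mul]
        push_cast
        field_simp

/-- Index of the value distribution: `none` is the value `0`. -/
noncomputable def fval : Option (Fin (n + 1)) → ℝ
  | none => 0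
  | some j => 4 ^ (j : ℕ)

/-- Weights of the value distribution. -/
noncomputable def fwt : Option (Fin (n + 1)) → ℝ
  | none => 1 - ∑ j : Fin (n + 1), fw n j
  | some j => fw n j

theorem fval_inj : Function.Injective (fval n) := by
  have h4 : ∀ k : ℕ, (0 : ℝ) < 4 ^ k := fun k => by positivity
  intro a b h
  match a, b with
  | none, none => rfl
  | none, some j => exact absurd h (h4 j).ne
  | some j, none => exact absurd h (h4 j).ne'
  | some i, some j =>
    simp only [fval] at h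
    have := pow_right_injective₀ (by norm_num : (0 : ℝ) < 4) (by norm_num) h
    rw [Fin.ext this]

/-- The value distribution `F`. -/
noncomputable def FF : FinDist :=
  ofIndex (fval n) (fval_inj n) (fwt n)
    (fun a => by
      match a with
      | none => simp only [fwt]; linarith [fw_sum_le n]
      | some j => exact (fw_pos n j).le)
    (by rw [Fintype.sum_option]; simp [fwt])
    (fun a => by
      match a with
      | none => exact le_refl _
      | some j => simp only [fval]; positivity)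

theorem cvf_inj : Function.Injective (fun j : Fin (n + 1) => cv j) :=
  fun _ _ h => Fin.ext (cv_strictMono.injective h)

/-- The outside option distribution `G`. -/
noncomputable def GG : FinDist :=
  ofIndex (fun j : Fin (n + 1) => cv j) (cvf_inj n)
    (fun j => gw n j) (fun j => gw_nonneg n j)
    (by
      rw [Fin.sum_univ_eq_sum_range (fun j => gw n j) (n + 1), sum_gw]
      simp [gg])
    (fun j => cv_nonneg j)

theorem sum_FF (h : ℝ → ℝ → ℝ) :
    ∑ v ∈ (FF n).pts, h v ((FF n).prob v) =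
      h 0 (fwt n none) + ∑ j : Fin (n + 1), h (4 ^ (j : ℕ)) (fw n j) := by
  unfold FF
  rw [sum_ofIndex (h := h), Fintype.sum_option]
  rfl

theorem sum_GG (h : ℝ → ℝ → ℝ) :
    ∑ c ∈ (GG n).pts, h c ((GG n).prob c) = ∑ i ∈ range (n + 1), h (cv i) (gw n i) := by
  unfold GG
  rw [sum_ofIndex (h := h), Fin.sum_univ_eq_sum_range (fun j => h (cv j) (gw n j)) (n + 1)]

/-! ## The posted price revenue -/

/-- The probability that the outside option is at most `t`. -/
theorem cdf_le {t : ℝ} {k : ℕ} (ht : t < cv k) :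
    ∑ i ∈ range (n + 1), (if cv i ≤ t then gw n i else 0) ≤ ∑ i ∈ range k, gw n i := by
  rw [← Finset.sum_filter]
  refine Finset.sum_le_sum_of_subset_of_nonneg ?_ (fun i _ _ => gw_nonneg n i)
  intro i hi
  rw [mem_filter] at hi
  rw [mem_range]
  exact cv_strictMono.lt_iff_lt.mp (lt_of_le_of_lt hi.2 ht)

theorem geom_aux (P : ℝ) (m : ℕ) :
    (2 ^ m < P → ∑ j ∈ range (m + 1), (if P ≤ 2 ^ j then P * (1 / 2) ^ j else 0) = 0) ∧
    (P ≤ 2 ^ m → ∑ j ∈ range (m + 1), (if P ≤ 2 ^ j then P * (1 / 2) ^ j else 0) ≤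
      2 - P * (1 / 2) ^ m) := by
  induction m with
  | zero =>
    constructor
    · intro h
      simp only [pow_zero] at h
      simp [not_le.mpr h]
    · intro h
      simp only [pow_zero] at h
      simp [h]
      linarith
  | succ m ih =>
    have e : (2 : ℝ) ^ (m + 1) = 2 * 2 ^ m := by rw [pow_succ]; ring
    have e2 : (1 / 2 : ℝ) ^ (m + 1) = (1 / 2) ^ m / 2 := by rw [pow_succ]; ring
    have hp : (0 : ℝ) < 2 ^ m := by positivity
    have hq : (2 : ℝ) ^ m * (1 / 2) ^ m = 1 := by rw [← mul_pow]; norm_num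
    constructor
    · intro h
      rw [Finset.sum_range_succ, ih.1 (by linarith), if_neg (not_le.mpr h)]
      simp
    · intro h
      rw [Finset.sum_range_succ, if_pos h]
      by_cases h2 : P ≤ 2 ^ m
      · have := ih.2 h2
        rw [e2]
        linarith
      · push Not at h2
        rw [ih.1 h2, e2]
        have h3 : P * (1 / 2) ^ m ≤ 2 := by
          calc P * (1 / 2) ^ m ≤ 2 ^ (m + 1) * (1 / 2) ^ m :=
                mul_le_mul_of_nonneg_right h (by positivity)
            _ = 2 * (2 ^ m * (1 / 2) ^ m) := by rw [e]; ring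
            _ = 2 := by rw [hq]; ring
        linarith

theorem geom_le (P : ℝ) (hP : 0 < P) (m : ℕ) :
    ∑ j ∈ range (m + 1), (if P ≤ 2 ^ j then P * (1 / 2) ^ j else 0) ≤ 2 := by
  by_cases h : P ≤ 2 ^ m
  · have := (geom_aux P m).2 h
    have h2 : 0 ≤ P * (1 / 2) ^ m := by positivity
    linarith
  · rw [(geom_aux P m).1 (not_le.mp h)]
    norm_num

theorem fw_gg {j : ℕ} (hj : j ≤ n) : fw n j * gg n j = ep n ^ n / (n + 1) * (1 / 2) ^ j := by
  unfold fw gg
  have h1 : ep n ^ n = ep n ^ j * ep n ^ (n - j) := by rw [← pow_add]; congr 1; omega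
  rw [h1, div_pow, one_div, inv_pow]
  field_simp

theorem cdf_high {P : ℝ} (hP : 0 < P) {j : ℕ} :
    ∑ i ∈ range (n + 1), (if cv i ≤ 4 ^ j - P then gw n i else 0) ≤ gg n j := by
  have h1 : (4 : ℝ) ^ j - P < cv (j + 1) := by linarith [four_pow_lt_cv j]
  have := cdf_le n (k := j + 1) h1
  rwa [sum_gw] at this

theorem cdf_low {P : ℝ} {j : ℕ} (hj : j ≤ n) (h : 2 ^ j < P) :
    ∑ i ∈ range (n + 1), (if cv i ≤ 4 ^ j - P then gw n i else 0) ≤ ep n * gg n j := by
  have h1 : (4 : ℝ) ^ j - P < cv j := by unfold cv; linarith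
  have h2 := cdf_le n (k := j) h1
  refine le_trans h2 ?_
  cases j with
  | zero =>
    simp only [range_zero, sum_empty]
    exact mul_nonneg (ep_pos n).le (gg_pos n 0).le
  | succ k =>
    rw [sum_gw]
    unfold gg
    rw [← pow_succ']
    exact le_of_eq (by congr 1; omega)

theorem posted_le (P : ℝ) (hP : 0 ≤ P) :
    P * probBuy (FF n) (GG n) P ≤ 4 * (ep n ^ n / (n + 1)) := by
  set κ : ℝ := ep n ^ n / (n + 1) with hκ
  have hκ0 : 0 < κ := by have := ep_pos n; positivity
  rcases hP.eq_or_lt with h0 | h0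
  · rw [← h0, zero_mul]; linarith
  -- the double sum
  have e1 : probBuy (FF n) (GG n) P = ∑ j ∈ range (n + 1), fw n j *
      ∑ i ∈ range (n + 1), (if cv i ≤ 4 ^ j - P then gw n i else 0) := by
    unfold probBuy
    rw [sum_FF n (fun v q => ∑ c ∈ (GG n).pts, if c ≤ v - P then q * (GG n).prob c else 0)]
    have e2 : ∀ v q : ℝ, (∑ c ∈ (GG n).pts, if c ≤ v - P then q * (GG n).prob c else 0) =
        q * ∑ i ∈ range (n + 1), (if cv i ≤ v - P then gw n i else 0) := by
      intro v q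
      rw [sum_GG n (fun c r => if c ≤ v - P then q * r else 0), Finset.mul_sum]
      refine Finset.sum_congr rfl fun i _ => ?_
      rw [mul_ite, mul_zero]
    rw [e2]
    have e3 : ∑ i ∈ range (n + 1), (if cv i ≤ 0 - P then gw n i else 0) = 0 := by
      refine Finset.sum_eq_zero fun i _ => ?_
      rw [if_neg]
      have := cv_nonneg i
      linarith
    rw [e3, mul_zero, zero_add]
    rw [← Fin.sum_univ_eq_sum_range (fun j => fw n j *
      ∑ i ∈ range (n + 1), (if cv i ≤ 4 ^ j - P then gw n i else 0)) (n + 1)]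
    exact Finset.sum_congr rfl fun j _ => e2 _ _
  rw [e1]
  by_cases hbig : (4 : ℝ) ^ n < P
  · have : ∑ j ∈ range (n + 1), fw n j *
        ∑ i ∈ range (n + 1), (if cv i ≤ 4 ^ j - P then gw n i else 0) = 0 := by
      refine Finset.sum_eq_zero fun j hj => ?_
      rw [Finset.sum_eq_zero, mul_zero]
      intro i _
      rw [if_neg]
      have h1 := cv_nonneg i
      have h2 : (4 : ℝ) ^ j ≤ 4 ^ n :=
        pow_le_pow_right₀ (by norm_num) (by rw [mem_range] at hj; omega)
      linarith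
    rw [this, mul_zero]
    linarith
  push Not at hbig
  have h1 : ∀ j ∈ range (n + 1), P * (fw n j *
      ∑ i ∈ range (n + 1), (if cv i ≤ 4 ^ j - P then gw n i else 0)) ≤
      κ * (if P ≤ 2 ^ j then P * (1 / 2) ^ j else 0) + κ * (P * ep n * (1 / 2) ^ j) := by
    intro j hj
    rw [mem_range] at hj
    have hjn : j ≤ n := by omega
    have hf := (fw_pos n j).le
    have hep := (ep_pos n).le
    have hg := fw_gg n hjn
    rw [← hκ] at hg
    have hnn : 0 ≤ κ * (P * ep n * (1 / 2) ^ j) := by positivity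
    by_cases hc : P ≤ 2 ^ j
    · rw [if_pos hc]
      have h2 := cdf_high n h0 (j := j)
      calc P * (fw n j * ∑ i ∈ range (n + 1), (if cv i ≤ 4 ^ j - P then gw n i else 0))
          ≤ P * (fw n j * gg n j) := by gcongr
        _ = κ * (P * (1 / 2) ^ j) := by rw [hg]; ring
        _ ≤ _ := by linarith
    · rw [if_neg hc]
      have h2 := cdf_low n hjn (not_le.mp hc)
      calc P * (fw n j * ∑ i ∈ range (n + 1), (if cv i ≤ 4 ^ j - P then gw n i else 0))
          ≤ P * (fw n j * (ep n * gg n j)) := by gcongr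
        _ = P * ep n * (fw n j * gg n j) := by ring
        _ = κ * (P * ep n * (1 / 2) ^ j) := by rw [hg]; ring
        _ ≤ _ := by linarith
  rw [Finset.mul_sum]
  refine le_trans (Finset.sum_le_sum h1) ?_
  rw [Finset.sum_add_distrib, ← Finset.mul_sum, ← Finset.mul_sum, ← Finset.mul_sum]
  have h2 := geom_le P h0 n
  have h3 : ∑ j ∈ range (n + 1), (1 / 2 : ℝ) ^ j ≤ 2 := by
    rw [geom_sum_eq (by norm_num)]
    have h0 : (0 : ℝ) < (1 / 2) ^ (n + 1) := by positivity
    have h1 : ((1 / 2 : ℝ) ^ (n + 1) - 1) / (1 / 2 - 1) = 2 - 2 * (1 / 2) ^ (n + 1) := by ring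
    rw [h1]
    linarith
  have h4 : P * ep n ≤ 1 := by
    calc P * ep n ≤ 4 ^ n * ep n := mul_le_mul_of_nonneg_right hbig (ep_pos n).le
      _ = 1 := by unfold ep; rw [← mul_pow]; norm_num
  have h5 : P * ep n * ∑ j ∈ range (n + 1), (1 / 2 : ℝ) ^ j ≤ 1 * 2 := by
    refine mul_le_mul h4 h3 ?_ zero_le_one
    exact Finset.sum_nonneg fun _ _ => by positivity
  nlinarith

theorem PP_le : PP (FF n) (GG n) ≤ 4 * (ep n ^ n / (n + 1)) := by
  unfold PP
  refine csSup_le ⟨0, 0, le_refl _, by simp⟩ ?_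
  rintro r ⟨P, hP, rfl⟩
  exact posted_le n P hP

/-! ## The menu -/

/-- The menu: lotteries `(1 - 2^(-j)/3, (2/3) 2^j)`. -/
def menu : Set (ℝ × ℝ) :=
  {o | ∃ j : ℕ, j ≤ n ∧ o = (1 - (1 / 2) ^ j / 3, 2 / 3 * 2 ^ j)}

theorem menu_mem : ∀ o ∈ menu n, 0 ≤ o.1 ∧ o.1 ≤ 1 := by
  rintro o ⟨j, _, rfl⟩
  have h1 : (0 : ℝ) < (1 / 2) ^ j := by positivity
  have h2 : (1 / 2 : ℝ) ^ j ≤ 1 := pow_le_one₀ (by norm_num) (by norm_num)
  constructor
  · simp only; linarith
  · simp only; linarith

/-- Utility of the `j`-th lottery for the value `4^i`. -/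
theorem util_le (i j : ℕ) : (4 : ℝ) ^ i * (1 - (1 / 2) ^ j / 3) - 2 / 3 * 2 ^ j ≤
    (4 : ℝ) ^ i * (1 - (1 / 2) ^ i / 3) - 2 / 3 * 2 ^ i := by
  have hb : (0 : ℝ) < 2 ^ j := by positivity
  have ha : (0 : ℝ) < 2 ^ i := by positivity
  have e1 : ∀ k : ℕ, (1 / 2 : ℝ) ^ k = 1 / 2 ^ k := fun k => by rw [div_pow, one_pow]
  rw [e1, e1, four_pow_eq]
  set a : ℝ := 2 ^ i with hae
  set b : ℝ := 2 ^ j with hbe
  have key : 0 ≤ (a - b) * (a - 2 * b) := by
    rcases Nat.lt_or_ge j i with h | h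
    · have : 2 * b ≤ a := by
        rw [hae, hbe, ← pow_succ']
        exact pow_le_pow_right₀ (by norm_num) h
      exact mul_nonneg (by linarith) (by linarith)
    · have : a ≤ b := by
        rw [hae, hbe]
        exact pow_le_pow_right₀ (by norm_num) h
      exact mul_nonneg_of_nonpos_of_nonpos (by linarith) (by linarith)
  have h1 : a * a * (1 - 1 / a / 3) - 2 / 3 * a - (a * a * (1 - 1 / b / 3) - 2 / 3 * b) =
      (a - b) * (a - 2 * b) / (3 * b) := by
    field_simp
    ring
  have h2 : 0 ≤ (a - b) * (a - 2 * b) / (3 * b) := div_nonneg key (by positivity)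
  linarith

theorem util_self (i : ℕ) : (4 : ℝ) ^ i * (1 - (1 / 2) ^ i / 3) - 2 / 3 * 2 ^ i = cv i := by
  have ha : (2 : ℝ) ^ i * (1 / 2) ^ i = 1 := by rw [← mul_pow]; norm_num
  unfold cv
  rw [four_pow_eq]
  have : (2 : ℝ) ^ i * 2 ^ i * (1 - (1 / 2) ^ i / 3) = 2 ^ i * 2 ^ i - 2 ^ i * (2 ^ i * (1 / 2) ^ i) / 3 := by
    ring
  rw [this, ha]
  ring

/-- Every possible payment is at most the value (for menus in `[0,1] × ℝ`). -/
theorem payments_le {M : Set (ℝ × ℝ)} (hM : ∀ o ∈ M, 0 ≤ o.1 ∧ o.1 ≤ 1) {v c : ℝ} (hv : 0 ≤ v)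
    (hc : 0 ≤ c) : ∀ r ∈ payments M v c, r ≤ v := by
  rintro r (⟨rfl, _⟩ | ⟨o, ho, rfl, h1, _⟩)
  · exact hv
  · have := (hM o ho).2
    nlinarith

theorem pay_le {M : Set (ℝ × ℝ)} (hM : ∀ o ∈ M, 0 ≤ o.1 ∧ o.1 ≤ 1) {v c : ℝ} (hv : 0 ≤ v)
    (hc : 0 ≤ c) : pay M v c ≤ v := by
  unfold pay
  rcases (payments M v c).eq_empty_or_nonempty with h | h
  · rw [h, Real.sSup_empty]; exact hv
  · exact csSup_le h (payments_le hM hv hc)

theorem pay_menu_nonneg (v c : ℝ) : 0 ≤ pay (menu n) v c := by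
  unfold pay
  refine Real.sSup_nonneg ?_
  rintro r (⟨rfl, _⟩ | ⟨o, ⟨j, _, rfl⟩, rfl, _, _⟩)
  · exact le_refl _
  · simp only; positivity

theorem le_pay_menu {i k : ℕ} (hi : i ≤ n) (hk : k ≤ i) :
    2 / 3 * 2 ^ i ≤ pay (menu n) (4 ^ i) (cv k) := by
  unfold pay
  refine le_csSup ⟨4 ^ i, payments_le (menu_mem n) (by positivity) (cv_nonneg k)⟩ ?_
  refine Or.inr ⟨_, ⟨i, hi, rfl⟩, rfl, ?_, ?_⟩
  · simp only
    rw [util_self]
    exact cv_strictMono.monotone hk
  · rintro o' ⟨j, _, rfl⟩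
    exact util_le i j

theorem le_OPT : 2 / 3 * ep n ^ n ≤ OPT (FF n) (GG n) := by
  have hb : BddAbove {r | ∃ M : Set (ℝ × ℝ), (∀ o ∈ M, 0 ≤ o.1 ∧ o.1 ≤ 1) ∧
      r = revenue (FF n) (GG n) M} := by
    refine ⟨∑ v ∈ (FF n).pts, ∑ c ∈ (GG n).pts, (FF n).prob v * (GG n).prob c * v, ?_⟩
    rintro r ⟨M, hM, rfl⟩
    refine Finset.sum_le_sum fun v hv => Finset.sum_le_sum fun c hc => ?_
    exact mul_le_mul_of_nonneg_left (pay_le hM ((FF n).pts_nonneg v hv) ((GG n).pts_nonneg c hc))
      (mul_nonneg ((FF n).prob_nonneg v) ((GG n).prob_nonneg c))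
  refine le_trans ?_ (le_csSup hb ⟨menu n, menu_mem n, rfl⟩)
  unfold revenue
  rw [sum_FF n (fun v q => ∑ c ∈ (GG n).pts, q * (GG n).prob c * pay (menu n) v c)]
  have e2 : ∀ v q : ℝ, (∑ c ∈ (GG n).pts, q * (GG n).prob c * pay (menu n) v c) =
      ∑ i ∈ range (n + 1), q * gw n i * pay (menu n) v (cv i) := by
    intro v q
    rw [sum_GG n (fun c r => q * r * pay (menu n) v c)]
  simp only [e2]
  have h0 : 0 ≤ ∑ i ∈ range (n + 1), fwt n none * gw n i * pay (menu n) 0 (cv i) := by
    refine Finset.sum_nonneg fun i _ => ?_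
    have h1 : 0 ≤ fwt n none := by simp only [fwt]; linarith [fw_sum_le n]
    exact mul_nonneg (mul_nonneg h1 (gw_nonneg n i)) (pay_menu_nonneg n _ _)
  have h1 : ∀ j : Fin (n + 1), 2 / 3 * (ep n ^ n / (n + 1)) ≤
      ∑ i ∈ range (n + 1), fw n j * gw n i * pay (menu n) (4 ^ (j : ℕ)) (cv i) := by
    intro j
    have hj : (j : ℕ) ≤ n := by have := j.2; omega
    calc 2 / 3 * (ep n ^ n / (n + 1)) = fw n j * gg n j * (2 / 3 * 2 ^ (j : ℕ)) := by
          rw [fw_gg n hj]
          have : (1 / 2 : ℝ) ^ (j : ℕ) * 2 ^ (j : ℕ) = 1 := by rw [← mul_pow]; norm_num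
          calc 2 / 3 * (ep n ^ n / (n + 1))
              = 2 / 3 * (ep n ^ n / (n + 1)) * ((1 / 2 : ℝ) ^ (j : ℕ) * 2 ^ (j : ℕ)) := by
                rw [this, mul_one]
            _ = _ := by ring
      _ = ∑ i ∈ range ((j : ℕ) + 1), fw n j * gw n i * (2 / 3 * 2 ^ (j : ℕ)) := by
          rw [← Finset.sum_mul, ← Finset.mul_sum, sum_gw]
      _ ≤ ∑ i ∈ range ((j : ℕ) + 1), fw n j * gw n i * pay (menu n) (4 ^ (j : ℕ)) (cv i) := by
          refine Finset.sum_le_sum fun i hi => ?_
          rw [mem_range] at hi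
          exact mul_le_mul_of_nonneg_left (le_pay_menu n hj (by omega))
            (mul_nonneg (fw_pos n j).le (gw_nonneg n i))
      _ ≤ _ := by
          refine Finset.sum_le_sum_of_subset_of_nonneg ?_ ?_
          · intro i hi
            rw [mem_range] at hi ⊢
            omega
          · intro i _ _
            exact mul_nonneg (mul_nonneg (fw_pos n j).le (gw_nonneg n i)) (pay_menu_nonneg n _ _)
  have h2 : ∑ _j : Fin (n + 1), 2 / 3 * (ep n ^ n / ((n : ℝ) + 1)) = 2 / 3 * ep n ^ n := by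
    rw [Finset.sum_const, card_univ, Fintype.card_fin, nsmul_eq_mul]
    push_cast
    field_simp
  have h3 := Finset.sum_le_sum (s := (univ : Finset (Fin (n + 1)))) (fun j _ => h1 j)
  rw [h2] at h3
  linarith

end Instance

/-- **Posted pricing is not a constant-factor approximation of the optimal revenue with a private
(exclusive) outside option: for every `C` there are finitely supported distributions `F`, `G` on
`[0, ∞)` (value and outside option independent) with `OPT(F,G) > C · PP(F,G)`.** -/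
theorem result : ∀ C : ℝ, ∃ F G : FinDist, C * PP F G < OPT F G := by
  intro C
  obtain ⟨k, hk⟩ := exists_nat_gt (max C 0)
  set n : ℕ := 6 * k with hn
  refine ⟨FF n, GG n, ?_⟩
  have h1 := PP_le n
  have h2 := le_OPT n
  have hep : 0 < ep n ^ n := pow_pos (ep_pos n) _
  have hPP0 : 0 ≤ PP (FF n) (GG n) := by
    unfold PP
    refine Real.sSup_nonneg' ⟨0, ⟨0, le_refl _, by simp⟩, le_refl _⟩
  have hn1 : (0 : ℝ) < (n : ℝ) + 1 := by positivity
  have hkC : max C 0 < k := hk
  have hn' : (n : ℝ) = 6 * k := by rw [hn]; push_cast; ring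
  calc C * PP (FF n) (GG n) ≤ max C 0 * PP (FF n) (GG n) :=
        mul_le_mul_of_nonneg_right (le_max_left _ _) hPP0
    _ ≤ max C 0 * (4 * (ep n ^ n / (n + 1))) :=
        mul_le_mul_of_nonneg_left h1 (le_max_right _ _)
    _ < 2 / 3 * ep n ^ n := by
        have h3 : max C 0 * 4 < 2 / 3 * ((n : ℝ) + 1) := by rw [hn']; linarith
        have h4 : max C 0 * (4 * (ep n ^ n / (n + 1))) = (max C 0 * 4) * (ep n ^ n / (n + 1)) := by
          ring
        rw [h4]
        have h5 : 0 < ep n ^ n / ((n : ℝ) + 1) := by positivity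
        calc (max C 0 * 4) * (ep n ^ n / (n + 1))
            < (2 / 3 * ((n : ℝ) + 1)) * (ep n ^ n / (n + 1)) := mul_lt_mul_of_pos_right h3 h5
          _ = 2 / 3 * ep n ^ n := by field_simp
    _ ≤ OPT (FF n) (GG n) := h2

end Pool.Agent.Results.MP_ec2b5b_lc.UnboundedGap
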